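import Mathlib
import Pool.Agent.Y166.MC.Stm
import Pool.Agent.Y166.SM.GenB
import Pool.Agent.Y166.GM.Strata

/-!
# The families of curves which dominate the general family of curves on `X`

The lifting lemma for the general strata, from the statement on generic points.
-/

set_option autoImplicit false
set_option linter.unusedSectionVars false
set_option linter.deprecated false

namespace Pool.Agent.Y76.MC.Lift1

open MvPolynomial Pool.Agent.Y166.GM Pool.Agent.Y166.SM Pool.Agent.Y198.MC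

/-! ### Curves with given parameters -/

section
variable {A M : Type} [CommRing A] {num : M → ℕ}

theorem yP_natDegree (c : Ix num → A) (j : M) {n : ℕ} (hn : num j ≤ n + 1) :
    (yP c j).natDegree ≤ n := by
  unfold yP
  refine Polynomial.natDegree_sum_le_of_forall_le _ _ fun p _ => ?_
  refine (Polynomial.natDegree_C_mul_X_pow_le _ _).trans ?_
  have := p.2
  omega

theorem yP_eq (c : Ix num → A) (j : M) (Q : Polynomial A) (hQ : Q.natDegree < num j)
    (hc : ∀ p : Fin (num j), c ⟨j, p⟩ = Q.coeff p) : yP c j = Q := by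
  unfold yP
  conv_rhs => rw [Q.as_sum_range_C_mul_X_pow' hQ]
  rw [Finset.sum_range]
  exact Finset.sum_congr rfl fun p _ => by rw [hc p]

theorem yP_map {B : Type} [CommRing B] (f : A →+* B) (c : Ix num → A) (j : M) :
    (yP c j).map f = yP (fun i => f (c i)) j := by
  unfold yP
  rw [Polynomial.map_sum]
  refine Finset.sum_congr rfl fun p _ => ?_
  rw [Polynomial.map_mul, Polynomial.map_C, Polynomial.map_pow, Polynomial.map_X]

theorem yP_add (c c' : Ix num → A) (j : M) : yP (c + c') j = yP c j + yP c' j := by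
  unfold yP
  rw [← Finset.sum_add_distrib]
  refine Finset.sum_congr rfl fun p _ => ?_
  rw [Pi.add_apply, Polynomial.C_add, add_mul]

theorem yP_smul (s : A) (c : Ix num → A) (j : M) : yP (s • c) j = s • yP c j := by
  unfold yP
  rw [Finset.smul_sum]
  refine Finset.sum_congr rfl fun p _ => ?_
  rw [Pi.smul_apply, smul_eq_mul, Polynomial.C_mul, Polynomial.smul_eq_C_mul, mul_assoc]

end

/-! ### Pairs of polynomials with a common zero -/

section
variable {k : Type} [Field k]

theorem pair_rel (F G : Polynomial k) (m n : ℕ) (hm : 1 ≤ m) (hn : 1 ≤ n) (hF : F.natDegree ≤ m)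
    (hG : G.natDegree ≤ n)
    (h : (∃ t, F.eval t = 0 ∧ G.eval t = 0) ∨ (F.coeff m = 0 ∧ G.coeff n = 0)) :
    ∃ A B : Polynomial k, A.natDegree ≤ n - 1 ∧ B.natDegree ≤ m - 1 ∧ (A ≠ 0 ∨ B ≠ 0) ∧
      A * F + B * G = 0 := by
  by_cases hFG : F = 0 ∧ G = 0
  · refine ⟨1, 0, ?_, ?_, Or.inl one_ne_zero, ?_⟩
    · rw [Polynomial.natDegree_one]; exact Nat.zero_le _
    · rw [Polynomial.natDegree_zero]; exact Nat.zero_le _
    · rw [hFG.1, hFG.2]; ring
  have hne : G ≠ 0 ∨ -F ≠ 0 := by
    by_contra hcon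
    push Not at hcon
    exact hFG ⟨neg_eq_zero.1 hcon.2, hcon.1⟩
  rcases h with ⟨t, hFt, hGt⟩ | ⟨hFm, hGn⟩
  · obtain ⟨F1, hF1⟩ := Polynomial.dvd_iff_isRoot.2 hFt
    obtain ⟨G1, hG1⟩ := Polynomial.dvd_iff_isRoot.2 hGt
    have hdeg : ∀ (l : ℕ) (H H1 : Polynomial k), H.natDegree ≤ l →
        H = (Polynomial.X - Polynomial.C t) * H1 → H1.natDegree ≤ l - 1 := by
      intro l H H1 hH h
      by_cases h1 : H1 = 0
      · rw [h1, Polynomial.natDegree_zero]; exact Nat.zero_le _
      · rw [h, Polynomial.natDegree_mul (Polynomial.X_sub_C_ne_zero t) h1,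
          Polynomial.natDegree_X_sub_C] at hH
        omega
    refine ⟨G1, -F1, hdeg n G G1 hG hG1, ?_, ?_, ?_⟩
    · rw [Polynomial.natDegree_neg]
      exact hdeg m F F1 hF hF1
    · rcases hne with h | h
      · left
        intro h3
        apply h
        rw [hG1, h3, mul_zero]
      · right
        intro h3
        apply h
        rw [neg_eq_zero] at h3
        rw [hF1, h3, mul_zero, neg_zero]
    · rw [hF1, hG1]
      ring
  · have hdeg : ∀ (l : ℕ) (H : Polynomial k), 1 ≤ l → H.natDegree ≤ l → H.coeff l = 0 →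
        H.natDegree ≤ l - 1 := by
      intro l H hl hH h0
      by_contra hcon
      have e5 : H.natDegree = l := by omega
      have e6 : H ≠ 0 := by
        intro h
        rw [h, Polynomial.natDegree_zero] at e5
        omega
      apply e6
      rw [← Polynomial.leadingCoeff_eq_zero, Polynomial.leadingCoeff, e5]
      exact h0
    refine ⟨G, -F, hdeg n G hn hG hGn, ?_, hne, by ring⟩
    rw [Polynomial.natDegree_neg]
    exact hdeg m F hm hF hFm

end

/-! ### The parameters of the family -/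

/-- The indices of the parameters of the cone over `X`. -/
abbrev MM (N : ℕ) : Type := Fin N ⊕ (Fin N ⊕ Fin 4)

/-- The numbers of the coefficients. -/
def nm (N a b d : ℕ) : MM N → ℕ :=
  Sum.elim (fun _ => a + 1)
    (Sum.elim (fun _ => b + 1) fun i => d - ((3 - (i : ℕ)) * a + (i : ℕ) * b) + 1)

section
variable {A : Type} [CommRing A] {N a b d : ℕ}

/-- The first vector of the curve. -/
noncomputable def pu (c : Ix (nm N a b d) → A) (i : Fin N) : Polynomial A := yP c (.inl i)

/-- The second vector of the curve. -/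
noncomputable def pv (c : Ix (nm N a b d) → A) (i : Fin N) : Polynomial A := yP c (.inr (.inl i))

/-- The coefficients of the cubic form of the curve. -/
noncomputable def pc (c : Ix (nm N a b d) → A) (i : Fin 4) : Polynomial A := yP c (.inr (.inr i))

theorem pu_deg (c : Ix (nm N a b d) → A) (i : Fin N) : (pu c i).natDegree ≤ a :=
  yP_natDegree c _ le_rfl

theorem pv_deg (c : Ix (nm N a b d) → A) (i : Fin N) : (pv c i).natDegree ≤ b :=
  yP_natDegree c _ le_rfl

theorem pc_deg (c : Ix (nm N a b d) → A) (i : Fin 4) :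
    (pc c i).natDegree ≤ d - ((3 - (i : ℕ)) * a + (i : ℕ) * b) :=
  yP_natDegree c _ le_rfl

theorem wt_le (hab : a ≤ b) (hd : 3 * b + 1 ≤ d) (i : Fin 4) :
    (3 - (i : ℕ)) * a + (i : ℕ) * b + 1 ≤ d := by
  have h1 : (3 - (i : ℕ)) * a ≤ (3 - (i : ℕ)) * b := Nat.mul_le_mul_left _ hab
  have h2 : (3 - (i : ℕ)) * b + (i : ℕ) * b = 3 * b := by
    rw [← add_mul]
    congr 1
    have := i.2
    omega
  omega

theorem nm_two (ha : 1 ≤ a) (hab : a ≤ b) (hd : 3 * b + 1 ≤ d) (j : MM N) :
    2 ≤ nm N a b d j := by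
  rcases j with i | i | i
  · show 2 ≤ a + 1
    omega
  · show 2 ≤ b + 1
    omega
  · show 2 ≤ d - ((3 - (i : ℕ)) * a + (i : ℕ) * b) + 1
    have := wt_le hab hd i
    omega

theorem Bd_p (hab : a ≤ b) (hd : 3 * b + 1 ≤ d) (c : Ix (nm N a b d) → A) :
    Bd a b d (pu c) (pv c) (pc c) := by
  refine ⟨pu_deg c, pv_deg c, fun i _ => ?_⟩
  have h1 := pc_deg c i
  have h2 := wt_le hab hd i
  omega

theorem wdg_deg {u v : Fin N → Polynomial A} (hu : ∀ i, (u i).natDegree ≤ a)
    (hv : ∀ i, (v i).natDegree ≤ b) (s : Sg N) : (wdg u v s).natDegree ≤ a + b := by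
  unfold wdg
  refine (Polynomial.natDegree_sub_le _ _).trans (max_le ?_ ?_)
  · exact Polynomial.natDegree_mul_le.trans (Nat.add_le_add (hu _) (hv _))
  · refine Polynomial.natDegree_mul_le.trans ?_
    have h1 := hv s.1
    have h2 := hu s.2
    omega

theorem mul4_deg {c x y z : Polynomial A} {l m n p d : ℕ} (hc : c.natDegree ≤ l)
    (hx : x.natDegree ≤ m) (hy : y.natDegree ≤ n) (hz : z.natDegree ≤ p)
    (h : l + (m + n + p) ≤ d) : (c * (x * y * z)).natDegree ≤ d := by
  have h1 := Polynomial.natDegree_mul_le (p := c) (q := x * y * z)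
  have h2 := Polynomial.natDegree_mul_le (p := x * y) (q := z)
  have h3 := Polynomial.natDegree_mul_le (p := x) (q := y)
  omega

theorem cub_deg (hab : a ≤ b) (hd : 3 * b + 1 ≤ d) {u v : Fin N → Polynomial A}
    {c : Fin 4 → Polynomial A} (hu : ∀ i, (u i).natDegree ≤ a) (hv : ∀ i, (v i).natDegree ≤ b)
    (hc : ∀ i : Fin 4, (c i).natDegree ≤ d - ((3 - (i : ℕ)) * a + (i : ℕ) * b)) (t : Ta N) :
    (cub u v c t).natDegree ≤ d := by
  have h0 : (c 0).natDegree ≤ d - 3 * a := by
    have := hc 0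
    simpa using this
  have h1 : (c 1).natDegree ≤ d - (2 * a + b) := by
    have := hc 1
    simpa using this
  have h2 : (c 2).natDegree ≤ d - (a + 2 * b) := by
    have := hc 2
    simpa using this
  have h3 : (c 3).natDegree ≤ d - 3 * b := by
    have := hc 3
    simpa using this
  unfold cub
  rw [mul_add, mul_add, mul_add, mul_add]
  have hadd : ∀ {p q : Polynomial A}, p.natDegree ≤ d → q.natDegree ≤ d →
      (p + q).natDegree ≤ d := fun hp hq => (Polynomial.natDegree_add_le _ _).trans (max_le hp hq)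
  refine hadd (hadd (hadd ?_ (hadd (hadd ?_ ?_) ?_)) (hadd (hadd ?_ ?_) ?_)) ?_
  · exact mul4_deg h0 (hu _) (hu _) (hu _) (by omega)
  · exact mul4_deg h1 (hu _) (hu _) (hv _) (by omega)
  · exact mul4_deg h1 (hu _) (hv _) (hu _) (by omega)
  · exact mul4_deg h1 (hv _) (hu _) (hu _) (by omega)
  · exact mul4_deg h2 (hu _) (hv _) (hv _) (by omega)
  · exact mul4_deg h2 (hv _) (hu _) (hv _) (by omega)
  · exact mul4_deg h2 (hv _) (hv _) (hu _) (by omega)
  · exact mul4_deg h3 (hv _) (hv _) (hv _) (by omega)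

/-- The coefficients of the Plücker coordinates. -/
noncomputable def wc (e : ℕ) (c : Ix (nm N a b d) → A) : Sg N × Fin (e + 1) → A :=
  fun x => (wdg (pu c) (pv c) x.1).coeff x.2

theorem wc_map {B : Type} [CommRing B] (e : ℕ) (f : A →+* B) (c : Ix (nm N a b d) → A)
    (x : Sg N × Fin (e + 1)) : f (wc e c x) = wc e (fun i => f (c i)) x := by
  unfold wc wdg pu pv
  rw [← yP_map, ← yP_map, ← yP_map, ← yP_map, ← Polynomial.map_mul, ← Polynomial.map_mul,
    ← Polynomial.map_sub, Polynomial.coeff_map]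

/-- The parameters with given polynomials. -/
noncomputable def par (u v : Fin N → Polynomial A) (c : Fin 4 → Polynomial A) :
    Ix (nm N a b d) → A := fun x => (Sum.elim u (Sum.elim v c) x.1).coeff x.2

theorem par_u (u v : Fin N → Polynomial A) (c : Fin 4 → Polynomial A)
    (hu : ∀ i, (u i).natDegree ≤ a) : pu (par (a := a) (b := b) (d := d) u v c) = u := by
  funext i
  refine yP_eq _ _ _ ?_ fun p => rfl
  show _ < a + 1
  exact Nat.lt_succ_of_le (hu i)

theorem par_v (u v : Fin N → Polynomial A) (c : Fin 4 → Polynomial A)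
    (hv : ∀ i, (v i).natDegree ≤ b) : pv (par (a := a) (b := b) (d := d) u v c) = v := by
  funext i
  refine yP_eq _ _ _ ?_ fun p => rfl
  show _ < b + 1
  exact Nat.lt_succ_of_le (hv i)

theorem par_c (u v : Fin N → Polynomial A) (c : Fin 4 → Polynomial A)
    (hc : ∀ i : Fin 4, (c i).natDegree ≤ d - ((3 - (i : ℕ)) * a + (i : ℕ) * b)) :
    pc (par (a := a) (b := b) (d := d) u v c) = c := by
  funext i
  refine yP_eq _ _ _ ?_ fun p => rfl
  show _ < d - ((3 - (i : ℕ)) * a + (i : ℕ) * b) + 1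
  exact Nat.lt_succ_of_le (hc i)

end

/-! ### The open condition -/

section
variable {k : Type} [Field k]

/-- The polynomials of a vector of coefficients. -/
noncomputable def pl {σ : Type} {d : ℕ} (i : σ) : (σ × Fin (d + 1) → k) →ₗ[k] Polynomial k where
  toFun v := pol fun l => v (i, l)
  map_add' v w := pol_add _ _
  map_smul' a v := by
    rw [RingHom.id_apply, Polynomial.smul_eq_C_mul]
    exact pol_smul _ _

/-- The polynomials of a vector of parameters. -/
noncomputable def ypL {N a b d : ℕ} (j : MM N) : (Ix (nm N a b d) → k) →ₗ[k] Polynomial k where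
  toFun c := yP c j
  map_add' c c' := yP_add c c' j
  map_smul' s c := by
    rw [RingHom.id_apply]
    exact yP_smul s c j

variable {N a b d : ℕ}

theorem wdg_eval (u v : Fin N → Polynomial k) (s : Sg N) (t : k) :
    (wdg u v s).eval t = wdg (fun i => (u i).eval t) (fun i => (v i).eval t) s := by
  unfold wdg
  rw [Polynomial.eval_sub, Polynomial.eval_mul, Polynomial.eval_mul]

theorem wdg_coeff (u v : Fin N → Polynomial k) (hu : ∀ i, (u i).natDegree ≤ a)
    (hv : ∀ i, (v i).natDegree ≤ b) (s : Sg N) :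
    (wdg u v s).coeff (a + b) = wdg (fun i => (u i).coeff a) (fun i => (v i).coeff b) s := by
  unfold wdg
  rw [Polynomial.coeff_sub, Polynomial.coeff_mul_add_eq_of_natDegree_le (hu _) (hv _),
    mul_comm (v s.1) (u s.2), Polynomial.coeff_mul_add_eq_of_natDegree_le (hu _) (hv _),
    mul_comm ((u s.2).coeff a)]

/-- The first vector of the special curve. -/
noncomputable def su (k : Type) [Field k] (N a : ℕ) : Fin N → Polynomial k := fun i =>
  if (i : ℕ) = 0 then 1 else if (i : ℕ) = 1 then Polynomial.X ^ a else 0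

/-- The second vector of the special curve. -/
noncomputable def sv (k : Type) [Field k] (N b : ℕ) : Fin N → Polynomial k := fun i =>
  if (i : ℕ) = 1 then 1 else if (i : ℕ) = 2 then Polynomial.X ^ b else 0

/-- The cubic form of the special curve. -/
noncomputable def sq (k : Type) [Field k] (b d : ℕ) : Fin 4 → Polynomial k :=
  ![1, 0, 0, Polynomial.X ^ (d - 3 * b)]

theorem su_deg (i : Fin N) : (su k N a i).natDegree ≤ a := by
  unfold su
  split_ifs
  · rw [Polynomial.natDegree_one]; exact Nat.zero_le _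
  · rw [Polynomial.natDegree_X_pow]
  · rw [Polynomial.natDegree_zero]; exact Nat.zero_le _

theorem sv_deg (i : Fin N) : (sv k N b i).natDegree ≤ b := by
  unfold sv
  split_ifs
  · rw [Polynomial.natDegree_one]; exact Nat.zero_le _
  · rw [Polynomial.natDegree_X_pow]
  · rw [Polynomial.natDegree_zero]; exact Nat.zero_le _

theorem sq_deg : ∀ i : Fin 4,
    (sq k b d i).natDegree ≤ d - ((3 - (i : ℕ)) * a + (i : ℕ) * b) := by
  rw [Fin.forall_fin_succ, Fin.forall_fin_succ, Fin.forall_fin_succ, Fin.forall_fin_one]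
  refine ⟨?_, ?_, ?_, ?_⟩
  · have h : sq k b d 0 = 1 := rfl
    rw [h, Polynomial.natDegree_one]
    exact Nat.zero_le _
  · have h : sq k b d (Fin.succ 0) = 0 := rfl
    rw [h, Polynomial.natDegree_zero]
    exact Nat.zero_le _
  · have h : sq k b d (Fin.succ (Fin.succ 0)) = 0 := rfl
    rw [h, Polynomial.natDegree_zero]
    exact Nat.zero_le _
  · have h : sq k b d (Fin.succ (Fin.succ (Fin.succ 0))) = Polynomial.X ^ (d - 3 * b) := rfl
    have h' : ((Fin.succ (Fin.succ (Fin.succ (0 : Fin 1))) : Fin 4) : ℕ) = 3 := rfl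
    rw [h, Polynomial.natDegree_X_pow, h']
    omega

theorem pl_apply {σ : Type} {d : ℕ} (i : σ) (v : σ × Fin (d + 1) → k) :
    pl i v = pol fun l => v (i, l) := rfl

theorem pl_wc (c : Ix (nm N a b d) → k) (s : Sg N) :
    pl s (wc (a + b) c) = wdg (pu c) (pv c) s := by
  have h1 : (fun l : Fin (a + b + 1) => wc (a + b) c (s, l)) =
      fun l : Fin (a + b + 1) => (wdg (pu c) (pv c) s).coeff l := by
    funext l
    unfold wc
    rfl
  rw [pl_apply, h1]
  exact pol_coeff_self (m := a + b) (wdg (pu c) (pv c) s) (wdg_deg (pu_deg c) (pv_deg c) s)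

/-- The indices `(0, 1)`. -/
def s01 (hN : 3 ≤ N) : Sg N := (⟨0, by omega⟩, ⟨1, by omega⟩)

/-- The indices `(1, 2)`. -/
def s12 (hN : 3 ≤ N) : Sg N := (⟨1, by omega⟩, ⟨2, by omega⟩)

/-- The parameters of the special curve. -/
noncomputable def sc (k : Type) [Field k] (N a b d : ℕ) : Ix (nm N a b d) → k :=
  par (su k N a) (sv k N b) (sq k b d)

theorem openA (hN : 3 ≤ N) (ha : 1 ≤ a) : ∃ P1 : MvPolynomial (Sg N × Fin (a + b + 1)) k,
    eval (wc (a + b) (sc k N a b d)) P1 ≠ 0 ∧ ∀ c : Ix (nm N a b d) → k,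
      eval (wc (a + b) c) P1 ≠ 0 →
      ¬ ((∃ t, (wdg (pu c) (pv c) (s01 hN)).eval t = 0 ∧
          (wdg (pu c) (pv c) (s12 hN)).eval t = 0) ∨
        ((wdg (pu c) (pv c) (s01 hN)).coeff (a + b) = 0 ∧
          (wdg (pu c) (pv c) (s12 hN)).coeff (a + b) = 0)) := by
  classical
  obtain ⟨m1, P1, _, h1, h2⟩ := sepPair (k := k) (pl (s01 hN)) (pl (s12 hN)) (a + b - 1)
    (a + b - 1) (wc (a + b) (sc k N a b d)) (by
      intro A B hA _ h
      rw [pl_wc, pl_wc] at h
      have hpu : pu (sc k N a b d) = su k N a := par_u _ _ _ su_deg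
      have hpv : pv (sc k N a b d) = sv k N b := par_v _ _ _ sv_deg
      rw [hpu, hpv] at h
      have e1 : wdg (su k N a) (sv k N b) (s01 hN) = 1 := by
        simp [wdg, su, sv, s01]
      have e2 : wdg (su k N a) (sv k N b) (s12 hN) = Polynomial.X ^ (a + b) := by
        simp [wdg, su, sv, s12, pow_add]
      rw [e1, e2] at h
      exact aux_inj (a + b - 1) (a + b) (by omega) A B hA h)
  refine ⟨P1, h1, fun c hc h => ?_⟩
  obtain ⟨A, B, hA, hB, hne, hAB⟩ := pair_rel _ _ (a + b) (a + b) (by omega) (by omega)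
    (wdg_deg (pu_deg c) (pv_deg c) (s01 hN)) (wdg_deg (pu_deg c) (pv_deg c) (s12 hN)) h
  refine hc (h2 _ ⟨A, B, hA, hB, hne, ?_⟩)
  rw [pl_wc, pl_wc]
  exact hAB

theorem pc_deg0 (c : Ix (nm N a b d) → k) : (pc c 0).natDegree ≤ d - 3 * a := by
  have h := pc_deg c 0
  have h' : ((0 : Fin 4) : ℕ) = 0 := rfl
  rw [h'] at h
  omega

theorem pc_deg3 (c : Ix (nm N a b d) → k) : (pc c 3).natDegree ≤ d - 3 * b := by
  have h := pc_deg c 3
  have h' : ((3 : Fin 4) : ℕ) = 3 := rfl
  rw [h'] at h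
  omega

theorem openB (hab : a ≤ b) (hd : 3 * b + 1 ≤ d) : ∃ P2 : MvPolynomial (Ix (nm N a b d)) k,
    eval (sc k N a b d) P2 ≠ 0 ∧ ∀ c : Ix (nm N a b d) → k, eval c P2 ≠ 0 →
      ¬ ((∃ t, (pc c 0).eval t = 0 ∧ (pc c 3).eval t = 0) ∨
        ((pc c 0).coeff (d - 3 * a) = 0 ∧ (pc c 3).coeff (d - 3 * b) = 0)) := by
  classical
  have hpc : pc (sc k N a b d) = sq k b d := par_c _ _ _ sq_deg
  obtain ⟨m2, P2, _, h3, h4⟩ := sepPair (k := k)
    (ypL (N := N) (a := a) (b := b) (d := d) (.inr (.inr 0)))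
    (ypL (.inr (.inr 3))) (d - 3 * b - 1) (d - 3 * a - 1) (sc k N a b d) (by
      intro A B hA _ h
      have e1 : ypL (N := N) (a := a) (b := b) (d := d) (.inr (.inr 0)) (sc k N a b d) = 1 :=
        congrFun hpc 0
      have e2 : ypL (N := N) (a := a) (b := b) (d := d) (.inr (.inr 3)) (sc k N a b d) =
        Polynomial.X ^ (d - 3 * b) := congrFun hpc 3
      rw [e1, e2] at h
      exact aux_inj (d - 3 * b - 1) (d - 3 * b) (by omega) A B hA h)
  refine ⟨P2, h3, fun c hc h => ?_⟩
  obtain ⟨A, B, hA, hB, hne, hAB⟩ := pair_rel _ _ (d - 3 * a) (d - 3 * b) (by omega)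
    (by omega) (pc_deg0 c) (pc_deg3 c) h
  exact hc (h4 _ ⟨A, B, hA, hB, hne, hAB⟩)

theorem eval_wc (c : Ix (nm N a b d) → k) (P1 : MvPolynomial (Sg N × Fin (a + b + 1)) k) :
    eval c (aeval (wc (a + b) (X : Ix (nm N a b d) → MvPolynomial (Ix (nm N a b d)) k)) P1) =
      eval (wc (a + b) c) P1 := by
  rw [eval_aeval]
  have h : (fun x => eval c (wc (a + b) (X : Ix (nm N a b d) →
      MvPolynomial (Ix (nm N a b d)) k) x)) = wc (a + b) c := by
    funext x
    rw [wc_map]
    have h' : (fun i => eval c (X i : MvPolynomial (Ix (nm N a b d)) k)) = c := by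
      funext i
      rw [eval_X]
    rw [h']
  rw [h]

theorem good_of (hN : 3 ≤ N) (hab : a ≤ b) (hd : 3 * b + 1 ≤ d) (c : Ix (nm N a b d) → k)
    (hw : ¬ ((∃ t, (wdg (pu c) (pv c) (s01 hN)).eval t = 0 ∧
          (wdg (pu c) (pv c) (s12 hN)).eval t = 0) ∨
        ((wdg (pu c) (pv c) (s01 hN)).coeff (a + b) = 0 ∧
          (wdg (pu c) (pv c) (s12 hN)).coeff (a + b) = 0)))
    (hcc : ¬ ((∃ t, (pc c 0).eval t = 0 ∧ (pc c 3).eval t = 0) ∨
        ((pc c 0).coeff (d - 3 * a) = 0 ∧ (pc c 3).coeff (d - 3 * b) = 0))) :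
    Gd a b d (pu c) (pv c) (pc c) := by
  refine ⟨?_, ?_, ?_, ?_⟩
  · intro t ht
    apply hw
    left
    refine ⟨t, ?_, ?_⟩
    · rw [wdg_eval, ht]; rfl
    · rw [wdg_eval, ht]; rfl
  · intro ht
    apply hw
    right
    refine ⟨?_, ?_⟩
    · rw [wdg_coeff _ _ (pu_deg c) (pv_deg c), ht]; rfl
    · rw [wdg_coeff _ _ (pu_deg c) (pv_deg c), ht]; rfl
  · intro t
    by_contra hcon
    push Not at hcon
    exact hcc (Or.inl ⟨t, hcon 0, hcon 3⟩)
  · by_contra hcon
    push Not at hcon
    apply hcc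
    right
    have h0 : ((0 : Fin 4) : ℕ) = 0 := rfl
    have h3 : ((3 : Fin 4) : ℕ) = 3 := rfl
    refine ⟨?_, ?_⟩
    · have h5 := hcon 0
      rw [h0] at h5
      have h6 := h5 (by omega)
      have h7 : d - ((3 - 0) * a + 0 * b) = d - 3 * a := by omega
      rw [h7] at h6
      exact h6
    · have h5 := hcon 3
      rw [h3] at h5
      have h6 := h5 (by omega)
      have h7 : d - ((3 - 3) * a + 3 * b) = d - 3 * b := by omega
      rw [h7] at h6
      exact h6

theorem good_open (hN : 3 ≤ N) (ha : 1 ≤ a) (hab : a ≤ b) (hd : 3 * b + 1 ≤ d) :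
    ∃ P₀ : MvPolynomial (Ix (nm N a b d)) k, P₀ ≠ 0 ∧ ∀ c : Ix (nm N a b d) → k,
      eval c P₀ ≠ 0 → Gd a b d (pu c) (pv c) (pc c) := by
  obtain ⟨P1, h1, h2⟩ := openA (k := k) (b := b) (d := d) hN ha
  obtain ⟨P2, h3, h4⟩ := openB (k := k) (N := N) (a := a) hab hd
  refine ⟨aeval (wc (a + b) (X : Ix (nm N a b d) → MvPolynomial (Ix (nm N a b d)) k)) P1 * P2,
    ?_, ?_⟩
  · intro h
    have h5 := congrArg (eval (sc k N a b d)) h
    rw [map_mul, eval_wc, map_zero] at h5
    exact mul_ne_zero h1 h3 h5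
  · intro c hc
    rw [map_mul, eval_wc] at hc
    exact good_of hN hab hd c (h2 c (left_ne_zero_of_mul hc)) (h4 c (right_ne_zero_of_mul hc))

end

/-! ### The theorem -/

section
variable {k : Type} [Field k]

/-- The coordinates of the first vector. -/
noncomputable def UU (k : Type) [Field k] (N : ℕ) (i : Fin N) : MvPolynomial (MM N) k := X (.inl i)

/-- The coordinates of the second vector. -/
noncomputable def VV (k : Type) [Field k] (N : ℕ) (i : Fin N) : MvPolynomial (MM N) k :=
  X (.inr (.inl i))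

/-- The coefficients of the cubic form. -/
noncomputable def CC (k : Type) [Field k] (N : ℕ) (i : Fin 4) : MvPolynomial (MM N) k :=
  X (.inr (.inr i))

theorem ptX_map {A B : Type} [CommRing A] [CommRing B] {N : ℕ} (f : A →+* B) (u v : Fin N → A)
    (c : Fin 4 → A) (j : Co N) :
    f (ptX u v c j) = ptX (fun i => f (u i)) (fun i => f (v i)) (fun i => f (c i)) j := by
  unfold ptX wdg cub
  simp only [map_mul, map_add, map_sub]

theorem aeval_ptX {W : Type} [Field W] [Algebra k W] {N : ℕ} (y : MM N → W) (j : Co N) :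
    aeval y (ptX (UU k N) (VV k N) (CC k N) j) =
      ptX (fun i => y (.inl i)) (fun i => y (.inr (.inl i))) (fun i => y (.inr (.inr i))) j := by
  have h1 := ptX_map (aeval y : MvPolynomial (MM N) k →ₐ[k] W).toRingHom (UU k N) (VV k N)
    (CC k N) j
  have h2 : ∀ P : MvPolynomial (MM N) k,
      (aeval y : MvPolynomial (MM N) k →ₐ[k] W).toRingHom P = aeval y P := fun P => rfl
  rw [h2] at h1
  rw [h1]
  congr 1
  · funext i
    exact aeval_X _ _
  · funext i
    exact aeval_X _ _
  · funext i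
    exact aeval_X _ _

theorem ptX_ne_zero (r : ℕ) : ptX (UU k (r + 2)) (VV k (r + 2)) (CC k (r + 2)) (j0 r) ≠ 0 := by
  intro h
  have h1 := congrArg (aeval (Sum.elim (fun i : Fin (r + 2) => if i = 0 then (1 : k) else 0)
    (Sum.elim (fun i : Fin (r + 2) => if i = 1 then (1 : k) else 0)
      (fun i : Fin 4 => if i = 0 then (1 : k) else 0)))) h
  rw [aeval_ptX, map_zero] at h1
  have h2 : Pool.Agent.Y198.MC.j0 r = ((0, 1), (0, 0, 0)) := rfl
  rw [h2] at h1
  simp [ptX, wdg, cub] at h1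

end

theorem done : StmMem → Pool.Agent.Y166.MC.StmGenR → StmAlg1 → Pool.Agent.Y198.MC.StmChart →
    StmLift1 := by
  intro hMem hGen hAlg hChart k _ _ _ N e d a b hN hab0 ha hab hd n Y hY f hf hfX hfin e₁ Ns hNs
    hsub
  subst hab0
  obtain ⟨r, rfl⟩ : ∃ r, N = r + 2 := ⟨N - 2, by omega⟩
  have hr : 1 ≤ r := by omega
  have hU : ∀ c : Ix (nm (r + 2) a b d) → k,
      (fun i => aeval (yP c) (UU k (r + 2) i)) = pu c := by
    intro c
    funext i
    exact aeval_X _ _
  have hV : ∀ c : Ix (nm (r + 2) a b d) → k,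
      (fun i => aeval (yP c) (VV k (r + 2) i)) = pv c := by
    intro c
    funext i
    exact aeval_X _ _
  have hC : ∀ c : Ix (nm (r + 2) a b d) → k,
      (fun i => aeval (yP c) (CC k (r + 2) i)) = pc c := by
    intro c
    funext i
    exact aeval_X _ _
  have hcv : ∀ c : Ix (nm (r + 2) a b d) → k,
      cvF (a + b) d (UU k (r + 2)) (VV k (r + 2)) (CC k (r + 2)) c =
        cv (a + b) d (pu c) (pv c) (pc c) := by
    intro c
    unfold cvF
    rw [hU, hV, hC]
  have hMem' := hMem k (r + 2) (a + b) d a b rfl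
  have hind0 : ∀ (W : Type) [Field W] [Algebra k W] (y : MM (r + 2) → W),
      AlgebraicIndependent k y →
      (AlgebraicIndependent k (fun i => aeval y (ptX (UU k (r + 2)) (VV k (r + 2))
          (CC k (r + 2)) (rrX r i)) /
        aeval y (ptX (UU k (r + 2)) (VV k (r + 2)) (CC k (r + 2)) (j0 r)))) ∧
      ∀ θ ∈ IntermediateField.adjoin k (Set.range y),
        IsAlgebraic (IntermediateField.adjoin k
          (Set.range fun i => aeval y (ptX (UU k (r + 2)) (VV k (r + 2))
            (CC k (r + 2)) (rrX r i)) /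
          aeval y (ptX (UU k (r + 2)) (VV k (r + 2)) (CC k (r + 2)) (j0 r)))) θ →
        θ ∈ IntermediateField.adjoin k
          (Set.range fun i => aeval y (ptX (UU k (r + 2)) (VV k (r + 2))
            (CC k (r + 2)) (rrX r i)) /
          aeval y (ptX (UU k (r + 2)) (VV k (r + 2)) (CC k (r + 2)) (j0 r))) := by
    intro W _ _ y hy
    have hy' : Sum.elim (fun i => y (.inl i)) (Sum.elim (fun i => y (.inr (.inl i)))
        (fun i => y (.inr (.inr i)))) = y := by
      funext x
      rcases x with x | x | x <;> rfl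
    have h1 := hAlg k W r (fun i => y (.inl i)) (fun i => y (.inr (.inl i)))
      (fun i => y (.inr (.inr i))) (by rw [hy']; exact hy)
    rw [hy'] at h1
    have hfun0 : (fun i => ptX (fun i => y (.inl i)) (fun i => y (.inr (.inl i)))
          (fun i => y (.inr (.inr i))) (rrX r i) /
        ptX (fun i => y (.inl i)) (fun i => y (.inr (.inl i)))
          (fun i => y (.inr (.inr i))) (j0 r)) =
        fun i => aeval y (ptX (UU k (r + 2)) (VV k (r + 2)) (CC k (r + 2)) (rrX r i)) /
          aeval y (ptX (UU k (r + 2)) (VV k (r + 2)) (CC k (r + 2)) (j0 r)) := by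
      funext i
      rw [aeval_ptX, aeval_ptX]
    rw [hfun0] at h1
    exact ⟨h1.1, h1.2.2⟩
  obtain ⟨W, _, _, y, z, m, F, mP, P, i₀, hy, hF, hP, hrep, hz, hinj, hP0, hi0, hF0, hprop, hratio,
    halg, hmem⟩ := hGen k r (a + b) d (MM (r + 2)) (nm (r + 2) a b d) hr (nm_two ha hab hd)
    (UU k (r + 2)) (VV k (r + 2)) (CC k (r + 2)) (Strat k (r + 2) (a + b) d a b)
    (by
      intro c s
      rw [hU, hV]
      exact wdg_deg (pu_deg c) (pv_deg c) s)
    (by
      intro c t
      rw [hU, hV, hC]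
      exact cub_deg hab hd (pu_deg c) (pv_deg c) (pc_deg c) t)
    hMem'.1
    (by
      rintro γ hγ
      apply subset_closure
      refine ⟨hγ, ?_⟩
      obtain ⟨u, v, q, hB, _, hγ'⟩ := hγ
      have hq : ∀ i : Fin 4, (q i).natDegree ≤ d - ((3 - (i : ℕ)) * a + (i : ℕ) * b) := by
        intro i
        by_cases h : q i = 0
        · rw [h, Polynomial.natDegree_zero]
          exact Nat.zero_le _
        · have := hB.hc i h
          omega
      refine ⟨par u v q, ?_⟩
      rw [hcv, par_u u v q hB.hu, par_v u v q hB.hv, par_c u v q hq]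
      exact hγ')
    (by
      obtain ⟨P₀, hP₀, h⟩ := good_open (k := k) hN ha hab hd
      refine ⟨P₀, hP₀, fun c hc => ?_⟩
      obtain ⟨γ, hγ⟩ := hMem'.2 (pu c) (pv c) (pc c) (Bd_p hab hd c) (h c hc)
      refine ⟨γ, ⟨pu c, pv c, pc c, Bd_p hab hd c, h c hc, hγ⟩, ?_⟩
      rw [hcv]
      exact hγ)
    (ptX_ne_zero r)
    (fun W _ _ y hy => (hind0 W y hy).1)
    n Y hY f hf hfX hfin e₁ Ns hNs
    (by
      intro m P hP h γ hγ
      exact (mem_closure_iff' _ _).1 (hsub hγ) m P hP fun q hq => h q hq.1 hq.2)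
  have hfun : (fun i => aeval z (F (rrX r i)) / aeval z (F (j0 r))) =
      fun i => aeval y (ptX (UU k (r + 2)) (VV k (r + 2)) (CC k (r + 2)) (rrX r i)) /
        aeval y (ptX (UU k (r + 2)) (VV k (r + 2)) (CC k (r + 2)) (j0 r)) := funext hratio
  obtain ⟨hi1, hi2⟩ := hind0 W y hy
  refine FLb (W := W) (⟨j0 r, rrX r, vvX k r, (hChart k r hr).1.eq⟩ : Chart (XX k (r + 2)) (Ch r))
    hY.1 hfX F hF P hP hrep i₀ z hz hP0 hi0 hF0 ?_ ?_ hinj
  · show AlgebraicIndependent k (fun i => aeval z (F (rrX r i)) / aeval z (F (j0 r)))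
    rw [hfun]
    exact hi1
  · intro i
    show z i / z i₀ ∈ IntermediateField.adjoin k
      (Set.range (fun i => aeval z (F (rrX r i)) / aeval z (F (j0 r))))
    rw [hfun]
    exact hi2 _ (hmem i) (halg i)

end Pool.Agent.Y76.MC.Lift1
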